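import Pool.Agent.H96.KX.Targets2

namespace Pool.Agent.H39.KX

open Finset Pool.Agent.H96.KX
open Pool.Agent.H1.LP (Clause viol Relax Loc Sys Agree supp ip kk comb)

theorem card_four : ∀ c : ZMod 2,
    (univ.filter (fun v : Fin 3 → ZMod 2 => ∑ l, v l ≠ c)).card = 4 := by
  decide

theorem zmod_two (v : ZMod 2) : v = 0 ∨ v = 1 := by
  revert v
  decide

section

variable {B R q n : ℕ} (hBq : B * q ≤ n)

/-- the variable of a position -/
def idx (p : Fin B × Fin q) : Fin n := Fin.castLE hBq (finProdFinEquiv p)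

theorem idx_inj : Function.Injective (idx hBq) := by
  intro p p' h
  exact finProdFinEquiv.injective (Fin.castLE_injective hBq h)

open Classical in
/-- the assignment of a table -/
noncomputable def asg (x : Fin B → Fin q → ZMod 2) : Fin n → Bool := fun t =>
  decide (∃ p : Fin B × Fin q, idx hBq p = t ∧ x p.1 p.2 ≠ 0)

/-- the table of an assignment -/
def dec (y : Fin n → Bool) : Fin B → Fin q → ZMod 2 := fun j s =>
  if y (idx hBq (j, s)) = true then 1 else 0

theorem dec_asg (x : Fin B → Fin q → ZMod 2) : dec hBq (asg hBq x) = x := by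
  classical
  funext j s
  unfold dec
  have h : asg hBq x (idx hBq (j, s)) = true ↔ x j s ≠ 0 := by
    unfold asg
    rw [decide_eq_true_iff]
    constructor
    · rintro ⟨p, hp, hx⟩
      have := idx_inj hBq hp
      subst this
      exact hx
    · intro hx
      exact ⟨(j, s), rfl, hx⟩
  by_cases hx : x j s = 0
  · rw [if_neg (fun h' => h.1 h' hx), hx]
  · rw [if_pos (h.2 hx)]
    exact ((zmod_two (x j s)).resolve_left hx).symm

variable (T : Fin R → Finset (Fin B)) (hT : ∀ i, (T i).card = 3)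

/-- the enumeration of the blocks of an equation -/
def en (i : Fin R) : Fin 3 → Fin B := (T i).orderEmbOfFin (hT i)

theorem en_inj (i : Fin R) : Function.Injective (en T hT i) :=
  ((T i).orderEmbOfFin (hT i)).injective

theorem ip_en (A : Fin R → Fin B → ZMod 2) (hA : ∀ i j, A i j = if j ∈ T i then 1 else 0)
    (i : Fin R) (v : Fin B → ZMod 2) : ip (A i) v = ∑ l, v (en T hT i l) := by
  classical
  unfold ip
  have h1 : ∀ j, A i j * v j = if j ∈ T i then v j else 0 := by
    intro j
    rw [hA]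
    split_ifs
    · rw [one_mul]
    · rw [zero_mul]
  rw [Finset.sum_congr rfl fun j _ => h1 j, Finset.sum_ite_mem, Finset.univ_inter]
  have h2 : T i = univ.map ((T i).orderEmbOfFin (hT i)).toEmbedding :=
    (Finset.map_orderEmbOfFin_univ (T i) (hT i)).symm
  conv_lhs => rw [h2]
  rw [Finset.sum_map]
  rfl

/-- the clause of an equation, positions and values -/
def cls (c : Fin R × (Fin 3 → Fin q × ZMod 2)) : Clause n :=
  univ.image (fun l : Fin 3 => (idx hBq (en T hT c.1 l, (c.2 l).1), decide ((c.2 l).2 = 0)))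

theorem not_sat (c : Fin R × (Fin 3 → Fin q × ZMod 2)) (y : Fin n → Bool) :
    ¬ (cls hBq T hT c).Sat y ↔ ∀ l, dec hBq y (en T hT c.1 l) (c.2 l).1 = (c.2 l).2 := by
  have key : ∀ l, ¬ y (idx hBq (en T hT c.1 l, (c.2 l).1)) = decide ((c.2 l).2 = 0) ↔
      dec hBq y (en T hT c.1 l) (c.2 l).1 = (c.2 l).2 := by
    intro l
    unfold dec
    rcases zmod_two (c.2 l).2 with h | h
    · rw [h]
      cases hy : y (idx hBq (en T hT c.1 l, (c.2 l).1)) <;> simp
    · rw [h]
      cases hy : y (idx hBq (en T hT c.1 l, (c.2 l).1)) <;> simp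
  constructor
  · intro h l
    rw [← key l]
    intro h'
    apply h
    exact ⟨_, Finset.mem_image.2 ⟨l, mem_univ l, rfl⟩, h'⟩
  · rintro h ⟨z, hz, hy⟩
    obtain ⟨l, _, rfl⟩ := Finset.mem_image.1 hz
    exact (key l).2 (h l) hy

theorem fst_inj (c : Fin R × (Fin 3 → Fin q × ZMod 2)) :
    Function.Injective (fun l : Fin 3 => idx hBq (en T hT c.1 l, (c.2 l).1)) := by
  intro l l' h
  have h1 := idx_inj hBq h
  exact en_inj T hT c.1 (Prod.mk.inj h1).1

theorem cls_card (c : Fin R × (Fin 3 → Fin q × ZMod 2)) :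
    (cls hBq T hT c).card = 3 ∧ ((cls hBq T hT c).image Prod.fst).card = 3 := by
  have h1 := fst_inj hBq T hT c
  constructor
  · unfold cls
    rw [Finset.card_image_of_injective, Finset.card_univ, Fintype.card_fin]
    intro l l' h
    exact h1 (Prod.mk.inj h).1
  · unfold cls
    rw [Finset.image_image]
    have h2 : (Prod.fst ∘ fun l : Fin 3 => (idx hBq (en T hT c.1 l, (c.2 l).1),
        decide ((c.2 l).2 = 0))) = fun l : Fin 3 => idx hBq (en T hT c.1 l, (c.2 l).1) := rfl
    rw [h2, Finset.card_image_of_injective _ h1, Finset.card_univ, Fintype.card_fin]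

/-- the embedding of the values -/
def emb (a : Fin B → Fin q) : (Σ _ : Fin R, (Fin 3 → ZMod 2)) ↪
    Fin R × (Fin 3 → Fin q × ZMod 2) where
  toFun p := (p.1, fun l => (a (en T hT p.1 l), p.2 l))
  inj' := by
    rintro ⟨i, v⟩ ⟨i', v'⟩ h
    obtain ⟨h1, h2⟩ := Prod.mk.inj h
    simp only at h1
    subst h1
    have : v = v' := by
      funext l
      exact (Prod.mk.inj (congrFun h2 l)).2
    rw [this]

/-- the pairs of an equation and violating values -/
def PP (be : Fin R → ZMod 2) : Finset (Σ _ : Fin R, (Fin 3 → ZMod 2)) :=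
  univ.sigma (fun i => univ.filter (fun v : Fin 3 → ZMod 2 => ∑ l, v l ≠ be i))

theorem PP_card (be : Fin R → ZMod 2) : (PP be).card = 4 * R := by
  unfold PP
  rw [Finset.card_sigma, Finset.sum_congr rfl fun i _ => card_four (be i), Finset.sum_const,
    Finset.card_univ, Fintype.card_fin, smul_eq_mul, mul_comm]

/-- the clauses of the formula -/
def FF (be : Fin R → ZMod 2) (a : Fin B → Fin q) : Finset (Fin R × (Fin 3 → Fin q × ZMod 2)) :=
  (PP be).map (emb T hT a)

theorem mem_FF (be : Fin R → ZMod 2) (a : Fin B → Fin q)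
    (c : Fin R × (Fin 3 → Fin q × ZMod 2)) :
    c ∈ FF T hT be a ↔ (∀ l, (c.2 l).1 = a (en T hT c.1 l)) ∧ ∑ l, (c.2 l).2 ≠ be c.1 := by
  unfold FF PP
  rw [Finset.mem_map]
  constructor
  · rintro ⟨⟨i, v⟩, hp, rfl⟩
    rw [Finset.mem_sigma, Finset.mem_filter] at hp
    exact ⟨fun l => rfl, hp.2.2⟩
  · rintro ⟨h1, h2⟩
    refine ⟨⟨c.1, fun l => (c.2 l).2⟩, ?_, ?_⟩
    · rw [Finset.mem_sigma, Finset.mem_filter]
      exact ⟨mem_univ _, mem_univ _, h2⟩
    · refine Prod.ext rfl ?_
      funext l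
      exact Prod.ext (h1 l).symm rfl

theorem FF_card (be : Fin R → ZMod 2) (a : Fin B → Fin q) : (FF T hT be a).card = 4 * R := by
  unfold FF
  rw [Finset.card_map, PP_card]

/-- the formula -/
noncomputable def ph (be : Fin R → ZMod 2) (a : Fin B → Fin q) (t : Fin (4 * R)) : Clause n :=
  cls hBq T hT ((Finset.equivFinOfCardEq (FF_card T hT be a)).symm t).1

theorem sum_ph (be : Fin R → ZMod 2) (a : Fin B → Fin q) (g : Clause n → ℝ) :
    ∑ t, g (ph hBq T hT be a t) = ∑ c ∈ FF T hT be a, g (cls hBq T hT c) := by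
  unfold ph
  rw [Equiv.sum_comp (Finset.equivFinOfCardEq (FF_card T hT be a)).symm
    (fun c : FF T hT be a => g (cls hBq T hT c.1))]
  exact Finset.sum_coe_sort (FF T hT be a) (fun c => g (cls hBq T hT c))

theorem viol_ph (A : Fin R → Fin B → ZMod 2) (hA : ∀ i j, A i j = if j ∈ T i then 1 else 0)
    (be : Fin R → ZMod 2) (a : Fin B → Fin q) (y : Fin n → Bool) :
    viol (ph hBq T hT be a) y =
      (univ.filter (fun i => ip (A i) (fun j => dec hBq y j (a j)) ≠ be i)).card := by
  classical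
  have h1 : (viol (ph hBq T hT be a) y : ℝ) =
      ∑ t, if ¬ (ph hBq T hT be a t).Sat y then (1 : ℝ) else 0 := by
    unfold viol
    rw [Finset.card_filter]
    push_cast
    exact Finset.sum_congr rfl fun t _ => by congr
  have h2 := sum_ph hBq T hT be a (fun c => if ¬ c.Sat y then (1 : ℝ) else 0)
  rw [h2] at h1
  have h3 : ∑ c ∈ FF T hT be a, (if ¬ (cls hBq T hT c).Sat y then (1 : ℝ) else 0) =
      ∑ i : Fin R, if ip (A i) (fun j => dec hBq y j (a j)) ≠ be i then (1 : ℝ) else 0 := by
    unfold FF PP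
    rw [Finset.sum_map, Finset.sum_sigma]
    refine Finset.sum_congr rfl fun i _ => ?_
    have h4 : ∀ v : Fin 3 → ZMod 2,
        (if ¬ (cls hBq T hT (emb T hT a ⟨i, v⟩)).Sat y then (1 : ℝ) else 0) =
        if v = (fun l => dec hBq y (en T hT i l) (a (en T hT i l))) then 1 else 0 := by
      intro v
      have h5 := not_sat hBq T hT (emb T hT a ⟨i, v⟩) y
      by_cases h6 : ¬ (cls hBq T hT (emb T hT a ⟨i, v⟩)).Sat y
      · rw [if_pos h6, if_pos]
        funext l
        exact (h5.1 h6 l).symm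
      · rw [if_neg h6, if_neg]
        intro h7
        apply h6
        rw [h5]
        intro l
        exact (congrFun h7 l).symm
    rw [Finset.sum_congr rfl fun v _ => h4 v, Finset.sum_ite_eq', ip_en T hT A hA]
    congr 1
    simp
  rw [h3] at h1
  have h5 : ((univ.filter (fun i => ip (A i) (fun j => dec hBq y j (a j)) ≠ be i)).card : ℝ) =
      ∑ i : Fin R, if ip (A i) (fun j => dec hBq y j (a j)) ≠ be i then (1 : ℝ) else 0 := by
    rw [Finset.card_filter]
    push_cast
    rfl
  rw [← h5] at h1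
  exact_mod_cast h1

end

theorem pf_FRM3 : S_FRM3 := by
  intro B R q n T A be hq hT hA hBq
  refine ⟨asg hBq, dec hBq, Fin R × (Fin 3 → Fin q × ZMod 2), inferInstance, cls hBq T hT,
    fun a c => (∀ l, (c.2 l).1 = a (en T hT c.1 l)) ∧ ∑ l, (c.2 l).2 ≠ be c.1, fun c => c.1,
    FF T hT be, ph hBq T hT be, dec_asg hBq, ?_, mem_FF T hT be, cls_card hBq T hT, ?_,
    sum_ph hBq T hT be, viol_ph hBq T hT A hA be, ?_⟩
  · rw [Fintype.card_prod, Fintype.card_fun, Fintype.card_prod, Fintype.card_fin,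
      Fintype.card_fin, Fintype.card_fin, ZMod.card, mul_comm q 2]
  · intro a i
    exact ⟨_, rfl⟩
  · intro a c x hc hsat
    have h1 := (not_sat hBq T hT c (asg hBq x)).1 hsat
    rw [ip_en T hT A hA]
    have h2 : ∑ l, x (en T hT c.1 l) (a (en T hT c.1 l)) = ∑ l, (c.2 l).2 := by
      refine Finset.sum_congr rfl fun l _ => ?_
      rw [← h1 l, dec_asg, hc.1 l]
    rw [h2]
    exact hc.2

end Pool.Agent.H39.KX
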