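import Pool.Agent.H96.KX.Targets

namespace Pool.Agent.H39.KX

open Finset Pool.Agent.H96.KX
open Pool.Agent.H1.LP (Clause viol Relax Loc Sys Agree supp ip kk)

theorem abs_re_le {p : ℕ} [NeZero p] (x : ZMod p) : |(ZMod.stdAddChar x : ℂ).re| ≤ 1 := by
  refine (Complex.abs_re_le_norm _).trans (le_of_eq ?_)
  exact AddChar.norm_apply _ _

theorem supp_zero (p B : ℕ) : supp (0 : Fin B → ZMod p) = ∅ := by
  unfold supp
  ext j
  simp

theorem ip_zero {p B : ℕ} (z : Fin B → ZMod p) : ip 0 z = 0 := by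
  unfold ip
  simp

theorem ip_add {p B : ℕ} (l z w : Fin B → ZMod p) : ip l (z + w) = ip l z + ip l w := by
  unfold ip
  rw [← Finset.sum_add_distrib]
  exact Finset.sum_congr rfl fun j _ => by rw [Pi.add_apply, mul_add]

theorem ip_single {p B : ℕ} (l : Fin B → ZMod p) (i : Fin B) : ip l (Pi.single i 1) = l i := by
  unfold ip
  rw [Finset.sum_eq_single i]
  · rw [Pi.single_eq_same, mul_one]
  · intro j _ hj
    rw [Pi.single_eq_of_ne hj, mul_zero]
  · intro h
    exact absurd (mem_univ i) h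

theorem ga_zero {p B d : ℕ} (S : Loc p B d) : S.ga 0 = 0 := by
  have h := S.add_ga 0 S.zero_mem 0 S.zero_mem (by rw [add_zero, supp_zero]; exact Nat.zero_le _)
  rw [add_zero] at h
  exact left_eq_add.1 h

theorem sum_char {p B : ℕ} [Fact p.Prime] (l : Fin B → ZMod p) (hl : l ≠ 0) (c : ZMod p) :
    ∑ z : Fin B → ZMod p, (ZMod.stdAddChar (ip l z - c) : ℂ) = 0 := by
  obtain ⟨i, hi⟩ := Function.ne_iff.1 hl
  have h1 : ∑ z : Fin B → ZMod p, (ZMod.stdAddChar (ip l z - c) : ℂ) =
      ZMod.stdAddChar (l i) * ∑ z : Fin B → ZMod p, (ZMod.stdAddChar (ip l z - c) : ℂ) := by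
    rw [Finset.mul_sum]
    rw [← Equiv.sum_comp (Equiv.addRight (Pi.single i 1 : Fin B → ZMod p))]
    refine Finset.sum_congr rfl fun z _ => ?_
    rw [Equiv.coe_addRight, ip_add, ip_single, ← AddChar.map_add_eq_mul]
    congr 1
    ring
  have hne : (ZMod.stdAddChar (l i) : ℂ) ≠ 1 := by
    intro h
    have h2 : (ZMod.stdAddChar (l i) : ℂ) = ZMod.stdAddChar (0 : ZMod p) := by
      rw [h, AddChar.map_zero_eq_one]
    exact hi (ZMod.injective_stdAddChar h2)
  have h3 : (ZMod.stdAddChar (l i) - (1 : ℂ)) *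
      ∑ z : Fin B → ZMod p, (ZMod.stdAddChar (ip l z - c) : ℂ) = 0 := by
    rw [sub_mul, one_mul, ← h1, sub_self]
  rcases mul_eq_zero.1 h3 with h4 | h4
  · exact absurd (sub_eq_zero.1 h4) hne
  · exact h4

theorem pf_PDA : S_PDA := by
  intro p B d _ S
  constructor
  · intro z
    unfold PDz
    refine (Finset.abs_sum_le_sum_abs _ _).trans ?_
    refine (Finset.sum_le_sum fun l _ => abs_re_le _).trans ?_
    rw [Finset.sum_const, nsmul_eq_mul, mul_one]
    have h1 : S.La.card ≤ Fintype.card (Fin B → ZMod p) := Finset.card_le_univ _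
    rw [Fintype.card_fun, ZMod.card, Fintype.card_fin] at h1
    exact_mod_cast h1
  · unfold PDz
    rw [Finset.sum_comm, Finset.sum_eq_single (0 : Fin B → ZMod p)]
    · have h1 : ∀ z : Fin B → ZMod p, (ZMod.stdAddChar (ip 0 z - S.ga 0) : ℂ).re = 1 := by
        intro z
        rw [ip_zero, ga_zero, sub_zero, AddChar.map_zero_eq_one, Complex.one_re]
      rw [Finset.sum_congr rfl fun z _ => h1 z, Finset.sum_const, Finset.card_univ,
        Fintype.card_fun, ZMod.card, Fintype.card_fin, nsmul_eq_mul, mul_one, Nat.cast_pow]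
    · intro l _ hl
      rw [← Complex.re_sum, sum_char l hl, Complex.zero_re]
    · intro h
      exact absurd S.zero_mem h

end Pool.Agent.H39.KX
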